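import Pool.Agent.Y113.GG.Alg
import Mathlib.Algebra.MvPolynomial.Degrees
import Mathlib.LinearAlgebra.Matrix.Determinant.Basic

/-!
# Specialisation of the kernel of a matrix of polynomials, with a bound for the degree of the exceptional polynomial
-/

set_option autoImplicit false

namespace Pool.Agent.L5helper14.SW

open Pool.Agent.Y113.GG

/-- a maximal linearly independent subfamily -/
lemma exists_rows {A V H : Type} [CommRing A] [IsDomain A] [AddCommGroup V] [Module A V] [Fintype H] (y : H → V) :
    ∃ (s : ℕ) (I : Fin s → H), s ≤ Fintype.card H ∧ LinearIndependent A (fun a => y (I a)) ∧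
      ∀ h, ∃ (D : A) (N : Fin s → A), D ≠ 0 ∧ D • y h = ∑ a, N a • y (I a) := by
  classical
  set F : Finset (Finset H) := Finset.univ.filter fun s => LinearIndependent A (fun k : s => y k) with hF
  have hne : F.Nonempty := by
    refine ⟨∅, ?_⟩
    rw [hF, Finset.mem_filter]
    exact ⟨Finset.mem_univ _, linearIndependent_empty_type⟩
  obtain ⟨s, hs, hmax⟩ := Finset.exists_max_image F Finset.card hne
  have hli := (Finset.mem_filter.1 hs).2
  have key : ∀ i, ∃ (D : A) (N : s → A), D ≠ 0 ∧ D • y i = ∑ k : s, N k • y k := by
    intro i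
    by_cases hi : i ∈ s
    · refine ⟨1, fun k => if (k : H) = i then 1 else 0, one_ne_zero, ?_⟩
      rw [Finset.sum_eq_single (⟨i, hi⟩ : s)]
      · simp
      · intro j _ hj
        have hj' : (j : H) ≠ i := fun h => hj (Subtype.ext h)
        simp [hj']
      · intro h; exact absurd (Finset.mem_univ _) h
    · have hnot : ¬ LinearIndependent A (fun k : (insert i s : Finset H) => y k) := by
        intro h
        have h1 : insert i s ∈ F := by
          rw [hF, Finset.mem_filter]
          exact ⟨Finset.mem_univ _, h⟩
        have h2 := hmax _ h1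
        rw [Finset.card_insert_of_notMem hi] at h2
        omega
      rw [Fintype.linearIndependent_iff] at hnot
      push Not at hnot
      obtain ⟨c, hc, j, hj⟩ := hnot
      have hsplit : ∑ k : (insert i s : Finset H), c k • y k =
          c ⟨i, Finset.mem_insert_self i s⟩ • y i + ∑ k : s, c ⟨k, Finset.mem_insert_of_mem k.2⟩ • y k := by
        have h1 : ∑ k : (insert i s : Finset H), c k • y k =
            ∑ k ∈ insert i s, (if h : k ∈ insert i s then c ⟨k, h⟩ • y k else 0) := by
          rw [← Finset.sum_coe_sort (insert i s) (fun k => if h : k ∈ insert i s then c ⟨k, h⟩ • y k else 0)]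
          refine Finset.sum_congr rfl fun k _ => ?_
          rw [dif_pos k.2]
        rw [h1, Finset.sum_insert hi, dif_pos (Finset.mem_insert_self i s)]
        congr 1
        rw [← Finset.sum_coe_sort s (fun k => if h : k ∈ insert i s then c ⟨k, h⟩ • y k else 0)]
        refine Finset.sum_congr rfl fun k _ => ?_
        rw [dif_pos (Finset.mem_insert_of_mem k.2)]
      refine ⟨c ⟨i, Finset.mem_insert_self i s⟩, fun k => - c ⟨k, Finset.mem_insert_of_mem k.2⟩, ?_, ?_⟩
      · intro h
        rw [hsplit, h, zero_smul, zero_add] at hc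
        have h2 := Fintype.linearIndependent_iff.1 hli _ hc
        rcases Finset.mem_insert.1 j.2 with h3 | h3
        · apply hj
          have : j = ⟨i, Finset.mem_insert_self i s⟩ := Subtype.ext h3
          rw [this]
          exact h
        · exact hj (h2 ⟨j, h3⟩)
      · rw [hsplit] at hc
        rw [Finset.sum_congr rfl fun k _ => neg_smul _ _, Finset.sum_neg_distrib]
        exact eq_neg_of_add_eq_zero_left hc
  set e : Fin s.card ≃ s := s.equivFin.symm with he
  refine ⟨s.card, fun a => (e a : H), s.card_le_univ, hli.comp e e.injective, fun h => ?_⟩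
  obtain ⟨D, N, hD, hN⟩ := key h
  refine ⟨D, fun a => N (e a), hD, ?_⟩
  rw [hN, ← e.sum_comp]

/-- **Specialisation of kernels.** Outside the zeros of a suitable nonzero minor the kernel of the specialised matrix is
the specialisation of the kernel. -/
theorem ker_spec_minor {A H J : Type} [CommRing A] [IsDomain A] [Fintype H] (R : H → J → A) :
    ∃ (s : ℕ) (I : Fin s → H) (J' : Fin s → J), s ≤ Fintype.card H ∧ (Matrix.of fun a b => R (I a) (J' b)).det ≠ 0 ∧
      ∀ (K : Type) [Field K] (i : K →+* A) (φ : A →+* K), φ.comp i = RingHom.id K →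
        φ (Matrix.of fun a b => R (I a) (J' b)).det ≠ 0 →
      ∀ f : H → K, (∀ j, ∑ h, f h * φ (R h j) = 0) →
        ∃ g : H → A, (∀ j, ∑ h, g h * R h j = 0) ∧ ∀ h, φ (g h) = f h := by
  classical
  obtain ⟨s, I, hs, hli, hdep⟩ := exists_rows (A := A) R
  obtain ⟨J', -, hdet⟩ := exists_minor (fun a => R (I a)) Set.univ (fun x hx => by
    funext a
    have h1 := Fintype.linearIndependent_iff.1 hli x (by
      funext j
      rw [Finset.sum_apply]
      simpa using hx j (Set.mem_univ j))
    simpa using h1 a)
  refine ⟨s, I, J', hs, hdet, fun K _ i φ hφ hΔ f hf => ?_⟩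
  set M : Matrix (Fin s) (Fin s) A := Matrix.of fun a b => R (I a) (J' b) with hM
  have hid : ∀ x, φ (i x) = x := fun x => by
    have := congrArg (fun L => L x) hφ
    simpa using this
  -- the coefficients of Cramer's rule
  set x : H → Fin s → A := fun h a => ∑ b, R h (J' b) * M.adjugate b a with hx
  have hcr : ∀ h j, M.det * R h j = ∑ a, x h a * R (I a) j := by
    intro h j
    obtain ⟨D, N, hD, hN⟩ := hdep h
    have hN' : ∀ j, D * R h j = ∑ a, N a * R (I a) j := by
      intro j
      have := congrFun hN j
      simpa [Finset.sum_apply] using this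
    have h1 : ∀ a, D * x h a = M.det * N a := by
      intro a
      have h2 : Matrix.vecMul (Matrix.vecMul N M) M.adjugate a = M.det * N a := by
        rw [Matrix.vecMul_vecMul, Matrix.mul_adjugate, Matrix.vecMul_smul, Matrix.vecMul_one]
        simp
      rw [← h2, hx]
      show D * ∑ b, R h (J' b) * M.adjugate b a = ∑ b, (∑ a', N a' * M a' b) * M.adjugate b a
      rw [Finset.mul_sum]
      refine Finset.sum_congr rfl fun b _ => ?_
      have h3 : ∑ a', N a' * M a' b = D * R h (J' b) := (hN' (J' b)).symm
      rw [h3]
      ring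
    refine mul_left_cancel₀ hD ?_
    calc D * (M.det * R h j) = M.det * (D * R h j) := by ring
      _ = ∑ a, (M.det * N a) * R (I a) j := by
        rw [hN', Finset.mul_sum]
        exact Finset.sum_congr rfl fun a _ => by ring
      _ = ∑ a, D * (x h a * R (I a) j) := Finset.sum_congr rfl fun a _ => by rw [← h1 a]; ring
      _ = _ := by rw [Finset.mul_sum]
  have hfx : ∀ a, ∑ h, f h * φ (x h a) = 0 := by
    intro a
    have h1 : ∀ h, f h * φ (x h a) = ∑ b, (f h * φ (R h (J' b))) * φ (M.adjugate b a) := by
      intro h
      rw [hx]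
      simp only [map_sum, map_mul]
      rw [Finset.mul_sum]
      exact Finset.sum_congr rfl fun b _ => by ring
    rw [Finset.sum_congr rfl fun h _ => h1 h, Finset.sum_comm]
    refine Finset.sum_eq_zero fun b _ => ?_
    rw [← Finset.sum_mul, hf (J' b), zero_mul]
  refine ⟨fun h' => i (φ M.det)⁻¹ * (M.det * i (f h') - ∑ h, i (f h) * ∑ a, if I a = h' then x h a else 0),
    fun j => ?_, fun h' => ?_⟩
  · have h1 : ∀ h', i (φ M.det)⁻¹ * (M.det * i (f h') - ∑ h, i (f h) * ∑ a, if I a = h' then x h a else 0) * R h' j =
        i (φ M.det)⁻¹ * (i (f h') * (M.det * R h' j) -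
          ∑ h, i (f h) * ∑ a, if I a = h' then x h a * R (I a) j else 0) := by
      intro h'
      rw [mul_assoc, sub_mul, Finset.sum_mul]
      congr 1
      congr 1
      · ring
      · refine Finset.sum_congr rfl fun h _ => ?_
        rw [mul_assoc, Finset.sum_mul]
        congr 1
        refine Finset.sum_congr rfl fun a _ => ?_
        split_ifs with hh
        · rw [hh]
        · rw [zero_mul]
    rw [Finset.sum_congr rfl fun h' _ => h1 h', ← Finset.mul_sum, Finset.sum_sub_distrib]
    have h2 : ∑ h', ∑ h, i (f h) * (∑ a, if I a = h' then x h a * R (I a) j else 0) =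
        ∑ h, i (f h) * (M.det * R h j) := by
      rw [Finset.sum_comm]
      refine Finset.sum_congr rfl fun h _ => ?_
      rw [← Finset.mul_sum, Finset.sum_comm, hcr]
      congr 1
      refine Finset.sum_congr rfl fun a _ => ?_
      rw [Finset.sum_ite_eq]
      simp
    rw [h2, sub_self, mul_zero]
  · rw [map_mul, map_sub, map_mul, hid, hid]
    have h1 : φ (∑ h, i (f h) * ∑ a, if I a = h' then x h a else 0) = 0 := by
      have h2 : ∀ h, φ (i (f h) * ∑ a, if I a = h' then x h a else 0) =
          ∑ a, if I a = h' then f h * φ (x h a) else 0 := by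
        intro h
        rw [map_mul, hid, map_sum, Finset.mul_sum]
        refine Finset.sum_congr rfl fun a _ => ?_
        split_ifs
        · rfl
        · rw [map_zero, mul_zero]
      rw [map_sum, Finset.sum_congr rfl fun h _ => h2 h, Finset.sum_comm]
      refine Finset.sum_eq_zero fun a _ => ?_
      split_ifs
      · exact hfx a
      · exact Finset.sum_const_zero
    rw [h1, sub_zero, ← mul_assoc, inv_mul_cancel₀ hΔ, one_mul]

open MvPolynomial in
/-- the degree of a determinant -/
lemma totalDegree_det_le {K : Type} [CommRing K] {σ : Type} {s d : ℕ} (M : Matrix (Fin s) (Fin s) (MvPolynomial σ K))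
    (h : ∀ a b, (M a b).totalDegree ≤ d) : M.det.totalDegree ≤ s * d := by
  classical
  rw [Matrix.det_apply']
  refine totalDegree_finsetSum_le fun σ' _ => ?_
  refine (totalDegree_mul _ _).trans ?_
  have h1 : (((Equiv.Perm.sign σ' : ℤˣ) : ℤ) : MvPolynomial σ K) = C (((Equiv.Perm.sign σ' : ℤˣ) : ℤ) : K) := by
    simp
  rw [h1, totalDegree_C, zero_add]
  refine (totalDegree_finsetProd _ _).trans ?_
  refine (Finset.sum_le_card_nsmul _ _ d fun a _ => h _ _).trans ?_
  simp

end Pool.Agent.L5helper14.SW
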