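import Pool.Agent.L5helper14.SW.Unif
import Pool.Agent.Y921.DB.Res

/-!
# Choosing integers one after another, for systems over a number field
-/

set_option autoImplicit false

open PowerSeries

namespace Pool.Agent.L5helper14.SW

open Pool.Agent.Y113 Pool.Agent.Y113.GG Pool.Agent.Y37.GF Pool.Agent.Y118.HG Pool.Agent.Y921.DB

variable {L : Type} [Field L] [NumberField L] {n k : ℕ} {ι : Type} [Algebra L ℂ]

/-- the functions in terms of the restricted matrix, uniformly in the constants -/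
lemma ptL_unif {f : Polynomial L} {A : Fin n → Fin n → Polynomial L} {Z W : Fin n → Fin n → L⟦X⟧}
    (h : DatL f A Z W) :
    ∃ (n' : ℕ) (F : Polynomial ℚ) (B : Fin n' → Fin n' → Polynomial ℚ) (Z' W' : Fin n' → Fin n' → ℚ⟦X⟧)
      (r : ℝ), Dat F B Z' W' ∧ 0 < r ∧ ∀ lam : Fin k → ι → Option (Fin n × Fin n) → ℂ,
      ∃ lam' : Fin k → ι → Option (Fin n' × Fin n') → ℂ,
      ∀ z : Fin k → ℂ, (∀ l, ‖z l‖ < r) → ptL lam Z z = pt lam' Z' z := by
  classical
  obtain ⟨d, b, hb1, hb2⟩ := exists_ibasis L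
  obtain ⟨F, B, hD⟩ := h.res b hb1 hb2
  obtain ⟨C, hC, hCZ, -⟩ := hD.bound
  have hC0 : 0 < C := by linarith
  refine ⟨n * d, F, B, Zr b Z, Zr b W, 1 / C, hD, by positivity, fun lam => ⟨fun l i q => q.elim (lam l i none) fun q =>
    lam l i (some ((ix n d q.1).1, (ix n d q.2).1)) *
      (((b.repr 1 (ix n d q.2).2 : ℚ) : ℂ) * algebraMap L ℂ (b (ix n d q.1).2)),
    fun z hz => ?_⟩⟩
  funext p
  unfold ptL pt
  rw [Fintype.sum_option, Fintype.sum_option]
  simp only [Option.elim_none, Option.elim_some, mul_one]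
  congr 1
  rw [Fintype.sum_prod_type, Fintype.sum_prod_type, ← (ix n d).symm.sum_comp, Fintype.sum_prod_type]
  refine Finset.sum_congr rfl fun i _ => ?_
  have h1 : ∀ i₀ : Fin d, ∑ y : Fin (n * d), lam p.1 p.2 (some (i, (ix n d y).1)) *
      (((b.repr 1 (ix n d y).2 : ℚ) : ℂ) * algebraMap L ℂ (b i₀)) *
      zc (Zr b Z) (z p.1) ((ix n d).symm (i, i₀), y) =
      ∑ j, ∑ j₀, lam p.1 p.2 (some (i, j)) * (((b.repr 1 j₀ : ℚ) : ℂ) * algebraMap L ℂ (b i₀)) *
        Ec (rho b (Z i j) i₀ j₀) (z p.1) := by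
    intro i₀
    rw [← (ix n d).symm.sum_comp, Fintype.sum_prod_type]
    refine Finset.sum_congr rfl fun j _ => Finset.sum_congr rfl fun j₀ _ => ?_
    simp only [zc, Zr, Equiv.apply_symm_apply]
  simp only [Equiv.apply_symm_apply] at h1 ⊢
  rw [Finset.sum_congr rfl fun i₀ _ => h1 i₀, Finset.sum_comm]
  refine Finset.sum_congr rfl fun j _ => ?_
  rw [VL_eq b (Y := Z i j) (z := z p.1) (fun i₀ j₀ => ?_), Finset.mul_sum]
  · refine Finset.sum_congr rfl fun i₀ _ => ?_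
    rw [Finset.mul_sum]
    exact Finset.sum_congr rfl fun j₀ _ => by ring
  · have h2 := hCZ ((ix n d).symm (i, i₀)) ((ix n d).symm (j, j₀))
    simp only [Zr, Equiv.apply_symm_apply] at h2
    exact sr_c hC h2 (hz p.1)

variable [Fintype ι]

/-- **One integer after another**, over number fields, uniformly in the constants -/
theorem specL_seq {f : Polynomial L} {A : Fin n → Fin n → Polynomial L} {Z W : Fin n → Fin n → L⟦X⟧}
    (h : DatL f A Z W) (δ D : ℕ) :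
    ∃ r : ℝ, 0 < r ∧ ∃ c : ℝ, 0 < c ∧ ∃ M : ℕ, ∀ (K : Type) [Field K] [NumberField K] [Algebra K ℂ],
      Module.finrank ℚ K ≤ D → ∀ lam : Fin k → ι → Option (Fin n × Fin n) → ℂ,
      ∃ E : Fin k → (Fin k → ℕ) → Set ℕ, Ex c M E ∧ ∀ m, (∀ l, m l ∉ E l m) →
        (∀ l, 1 / (m l : ℝ) < r) ∧ SpecK K (ptL lam Z) r δ m := by
  obtain ⟨n', F, B, Z', W', r₁, hD, hr₁, heq⟩ := ptL_unif (k := k) (ι := ι) h
  obtain ⟨r, hr, hrr, c, hc, M, H⟩ := spec_seq (k := k) (ι := ι) hD δ D hr₁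
  refine ⟨r, hr, c, hc, M, ?_⟩
  intro K _ _ _ hKD lam
  obtain ⟨lam', hlam⟩ := heq lam
  obtain ⟨E, hE, hE'⟩ := H K hKD lam'
  refine ⟨E, hE, fun m hw => ?_⟩
  obtain ⟨h1, h2⟩ := hE' m hw
  exact ⟨h1, SpecK.congr (fun z hz => hlam z fun l => (hz l).trans_le hrr) h1 h2⟩

end Pool.Agent.L5helper14.SW
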