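import Pool.Agent.Y921.DB.Nd
import Pool.Agent.Y113.W.Count
import Mathlib.Algebra.MvPolynomial.Equiv
import Mathlib.Algebra.MvPolynomial.Degrees

/-!
# Choosing integers one after another outside thin sets
-/

set_option autoImplicit false

open PowerSeries

namespace Pool.Agent.L5helper14.SW

open Pool.Agent.Y113 Pool.Agent.Y113.GG Pool.Agent.Y37.GF Pool.Agent.Y118.HG Pool.Agent.Y921.DB

/-- at most `M` elements in every interval `[N, N + N ^ c]` -/
def Thin (c : ℝ) (M : ℕ) (B : Set ℕ) : Prop :=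
  ∀ (N : ℕ) (S : Finset ℕ), 1 ≤ N → (∀ s ∈ S, s ∈ B ∧ N ≤ s ∧ (s : ℝ) ≤ N + (N : ℝ) ^ c) → S.card ≤ M

lemma Thin.mono {c c' : ℝ} (hc : c ≤ c') {M M' : ℕ} (hM : M' ≤ M) {B : Set ℕ} (h : Thin c' M' B) : Thin c M B := by
  intro N S hN hS
  refine (h N S hN fun s hs => ?_).trans hM
  obtain ⟨h1, h2, h3⟩ := hS s hs
  refine ⟨h1, h2, h3.trans ?_⟩
  have : (1 : ℝ) ≤ N := by exact_mod_cast hN
  linarith [Real.rpow_le_rpow_of_exponent_le this hc]

lemma Thin.union {c : ℝ} {M M' : ℕ} {B B' : Set ℕ} (h : Thin c M B) (h' : Thin c M' B') : Thin c (M + M') (B ∪ B') := by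
  classical
  intro N S hN hS
  have h1 : S ⊆ S.filter (· ∈ B) ∪ S.filter (· ∈ B') := by
    intro s hs
    rw [Finset.mem_union, Finset.mem_filter, Finset.mem_filter]
    rcases (hS s hs).1 with h2 | h2
    · exact Or.inl ⟨hs, h2⟩
    · exact Or.inr ⟨hs, h2⟩
  refine (Finset.card_le_card h1).trans ((Finset.card_union_le _ _).trans (Nat.add_le_add ?_ ?_))
  · exact h N _ hN fun s hs => ⟨(Finset.mem_filter.1 hs).2, (hS s (Finset.mem_filter.1 hs).1).2⟩
  · exact h' N _ hN fun s hs => ⟨(Finset.mem_filter.1 hs).2, (hS s (Finset.mem_filter.1 hs).1).2⟩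

lemma thin_finset {c : ℝ} {M : ℕ} (F : Finset ℕ) (hF : F.card ≤ M) : Thin c M (F : Set ℕ) := by
  intro N S hN hS
  exact (Finset.card_le_card fun s hs => (hS s hs).1).trans hF

open Classical in
/-- the number of the elements up to `T` -/
theorem thin_count {c : ℝ} (hc : 0 < c) (M : ℕ) : ∃ c' : ℝ, 0 < c' ∧ ∃ C : ℝ, 0 ≤ C ∧ ∀ B : Set ℕ, Thin c M B →
    ∀ T : ℕ, 1 ≤ T → (((Finset.Icc 1 T).filter fun s => s ∈ B).card : ℝ) ≤ C * (T : ℝ) ^ (1 - c') := by
  obtain ⟨E₀, hE₀⟩ := exists_nat_ge (1 / c)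
  set E := max E₀ 2 with hE
  have hE2 : 2 ≤ E := le_max_right _ _
  have hEc : 1 / c ≤ E := hE₀.trans (by exact_mod_cast le_max_left E₀ 2)
  obtain ⟨c', hc', hc'1, C, hC, H⟩ := count_windows M E
  refine ⟨c', hc', C + 1, by linarith, fun B hB T hT => ?_⟩
  have hT1 : (1 : ℝ) ≤ T := by exact_mod_cast hT
  have h1 := H (fun s => s ∈ B) (fun H t ht S hS => by
    have hlow : (H + 1) ^ E ≤ t - H := by
      have e1 : (H + 1) ^ E + H ≤ (H + 2) ^ E := by
        obtain ⟨e, he⟩ : ∃ e, E = e + 2 := ⟨E - 2, by omega⟩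
        rw [he]
        have e2 : (H + 1) ^ (e + 1) ≤ (H + 2) ^ (e + 1) := Nat.pow_le_pow_left (by omega) _
        have e3 : H ≤ (H + 1) ^ (e + 1) := by
          calc H ≤ H + 1 := Nat.le_succ _
            _ ≤ (H + 1) ^ (e + 1) := Nat.le_self_pow (by omega) _
        calc (H + 1) ^ (e + 2) + H = (H + 1) ^ (e + 1) * (H + 1) + H := by ring
          _ ≤ (H + 1) ^ (e + 1) * (H + 1) + (H + 1) ^ (e + 1) := Nat.add_le_add_left e3 _
          _ = (H + 1) ^ (e + 1) * (H + 2) := by ring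
          _ ≤ (H + 2) ^ (e + 1) * (H + 2) := Nat.mul_le_mul_right _ e2
          _ = (H + 2) ^ (e + 2) := by ring
      omega
    have hHt : H ≤ t := by
      calc H ≤ H + 2 := by omega
        _ ≤ (H + 2) ^ E := Nat.le_self_pow (by omega) _
        _ ≤ t := ht
    have hN1 : 1 ≤ t - H := le_trans (Nat.one_le_pow _ _ (by omega)) hlow
    have hH : (H : ℝ) ≤ ((t - H : ℕ) : ℝ) ^ c := by
      have e1 : ((H : ℝ) + 1) ^ E ≤ ((t - H : ℕ) : ℝ) := by exact_mod_cast hlow
      have e2 : (((H : ℝ) + 1) ^ E) ^ c ≤ ((t - H : ℕ) : ℝ) ^ c := Real.rpow_le_rpow (by positivity) e1 hc.le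
      have e3 : (((H : ℝ) + 1) ^ E) ^ c = ((H : ℝ) + 1) ^ ((E : ℝ) * c) := by
        rw [← Real.rpow_natCast, ← Real.rpow_mul (by positivity)]
      have e4 : 1 ≤ (E : ℝ) * c := by
        rw [div_le_iff₀ hc] at hEc
        exact hEc
      have e5 : (H : ℝ) + 1 ≤ ((H : ℝ) + 1) ^ ((E : ℝ) * c) := by
        have := Real.rpow_le_rpow_of_exponent_le (show (1 : ℝ) ≤ (H : ℝ) + 1 by
          linarith [show (0 : ℝ) ≤ H by positivity]) e4
        rwa [Real.rpow_one] at this
      linarith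
    have h2 := hB (t - H) (S.image fun g => t - g) hN1 (by
      intro s hs
      obtain ⟨g, hg, rfl⟩ := Finset.mem_image.1 hs
      obtain ⟨h3, h4⟩ := hS g hg
      refine ⟨h4, by omega, ?_⟩
      have h5 : t - g ≤ (t - H) + H := by omega
      calc ((t - g : ℕ) : ℝ) ≤ ((t - H + H : ℕ) : ℝ) := by exact_mod_cast h5
        _ = ((t - H : ℕ) : ℝ) + H := by push_cast; ring
        _ ≤ _ := by linarith)
    rwa [Finset.card_image_of_injOn] at h2
    intro a ha a' ha' haa
    have h3 := (hS a (by exact_mod_cast ha)).1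
    have h4 := (hS a' (by exact_mod_cast ha')).1
    simp only at haa
    omega) T hT
  have h2 : (Finset.Icc 1 T).filter (fun s => s ∈ B) ⊆ insert 1 ((Finset.Icc 2 T).filter fun s => s ∈ B) := by
    intro s hs
    obtain ⟨h3, h4⟩ := Finset.mem_filter.1 hs
    rw [Finset.mem_Icc] at h3
    rw [Finset.mem_insert, Finset.mem_filter, Finset.mem_Icc]
    by_cases h5 : s = 1
    · exact Or.inl h5
    · exact Or.inr ⟨⟨by omega, h3.2⟩, h4⟩
  have h3 : (((Finset.Icc 1 T).filter fun s => s ∈ B).card : ℝ) ≤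
      (((Finset.Icc 2 T).filter fun s => s ∈ B).card : ℝ) + 1 := by
    exact_mod_cast (Finset.card_le_card h2).trans (Finset.card_insert_le _ _)
  have h4 : (1 : ℝ) ≤ (T : ℝ) ^ (1 - c') := Real.one_le_rpow hT1 (by linarith)
  linarith

/-- `E l m` is a thin set which depends only on the `m i`, `i > l` -/
def Ex {k : ℕ} (c : ℝ) (M : ℕ) (E : Fin k → (Fin k → ℕ) → Set ℕ) : Prop :=
  (∀ l m, Thin c M (E l m)) ∧ ∀ l m m', (∀ i, l < i → m i = m' i) → E l m = E l m'

lemma Ex.mono {k : ℕ} {c c' : ℝ} (hc : c ≤ c') {M M' : ℕ} (hM : M' ≤ M) {E : Fin k → (Fin k → ℕ) → Set ℕ}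
    (h : Ex c' M' E) : Ex c M E := ⟨fun l m => (h.1 l m).mono hc hM, h.2⟩

lemma Ex.union {k : ℕ} {c : ℝ} {M M' : ℕ} {E E' : Fin k → (Fin k → ℕ) → Set ℕ}
    (h : Ex c M E) (h' : Ex c M' E') : Ex c (M + M') (fun l m => E l m ∪ E' l m) :=
  ⟨fun l m => (h.1 l m).union (h'.1 l m), fun l m m' hmm => by
    show E l m ∪ E' l m = E l m' ∪ E' l m'
    rw [h.2 l m m' hmm, h'.2 l m m' hmm]⟩

open Classical in
/-- few tuples of a product set are exceptional -/
theorem count_prod {k : ℕ} (E : Fin k → (Fin k → ℕ) → Set ℕ)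
    (hE : ∀ l m m', (∀ i, l < i → m i = m' i) → E l m = E l m') (S : Fin k → Finset ℕ) {M : Fin k → ℝ}
    (hM : ∀ l m, (((S l).filter fun s => s ∈ E l m).card : ℝ) ≤ M l) :
    (((Fintype.piFinset S).filter fun m => ∃ l, m l ∈ E l m).card : ℝ) ≤
      ∑ l, M l * ∏ i ∈ Finset.univ.erase l, ((S i).card : ℝ) := by
  have h1 : (Fintype.piFinset S).filter (fun m => ∃ l, m l ∈ E l m) ⊆
      Finset.univ.biUnion fun l => (Fintype.piFinset S).filter fun m => m l ∈ E l m := by
    intro m hm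
    obtain ⟨h2, l, h3⟩ := Finset.mem_filter.1 hm
    exact Finset.mem_biUnion.2 ⟨l, Finset.mem_univ _, Finset.mem_filter.2 ⟨h2, h3⟩⟩
  have h2 : ∀ l, (((Fintype.piFinset S).filter fun m => m l ∈ E l m).card : ℝ) ≤
      M l * ∏ i ∈ Finset.univ.erase l, ((S i).card : ℝ) := by
    intro l
    -- the fibres of the restriction to the other coordinates
    set P := Fintype.piFinset (fun i : Fin k => if i = l then ({0} : Finset ℕ) else S i) with hP
    have hPc : ((P.card : ℕ) : ℝ) = ∏ i ∈ Finset.univ.erase l, ((S i).card : ℝ) := by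
      rw [hP, Fintype.card_piFinset, ← Finset.mul_prod_erase _ _ (Finset.mem_univ l), if_pos rfl, Finset.card_singleton,
        one_mul]
      push_cast
      refine Finset.prod_congr rfl fun i hi => ?_
      rw [if_neg (Finset.ne_of_mem_erase hi)]
    rw [← hPc]
    have h3 : ∀ m ∈ (Fintype.piFinset S).filter (fun m => m l ∈ E l m), Function.update m l 0 ∈ P := by
      intro m hm
      have h4 := Fintype.mem_piFinset.1 (Finset.mem_filter.1 hm).1
      rw [hP, Fintype.mem_piFinset]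
      intro i
      by_cases hi : i = l
      · subst hi
        simp
      · rw [Function.update_of_ne hi, if_neg hi]
        exact h4 i
    rw [Finset.card_eq_sum_card_fiberwise h3]
    push_cast
    rw [mul_comm, ← nsmul_eq_mul]
    refine Finset.sum_le_card_nsmul _ _ _ fun u _ => ?_
    refine le_trans ?_ (hM l u)
    refine Nat.cast_le.2 ?_
    refine Finset.card_le_card_of_injOn (fun m => m l) ?_ ?_
    · intro m hm
      rw [Finset.mem_coe] at hm ⊢
      obtain ⟨h5, h6⟩ := Finset.mem_filter.1 hm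
      obtain ⟨h7, h8⟩ := Finset.mem_filter.1 h5
      refine Finset.mem_filter.2 ⟨Fintype.mem_piFinset.1 h7 l, ?_⟩
      rw [hE l u m fun i hi => ?_]
      · exact h8
      · rw [← h6, Function.update_of_ne (ne_of_gt hi)]
    · intro m hm m' hm' hmm
      rw [Finset.mem_coe] at hm hm'
      have h6 := (Finset.mem_filter.1 hm).2
      have h6' := (Finset.mem_filter.1 hm').2
      funext i
      by_cases hi : i = l
      · subst hi
        exact hmm
      · have h7 := congrFun (h6.trans h6'.symm) i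
        rwa [Function.update_of_ne hi, Function.update_of_ne hi] at h7
  calc (((Fintype.piFinset S).filter fun m => ∃ l, m l ∈ E l m).card : ℝ) ≤
        ((Finset.univ.biUnion fun l => (Fintype.piFinset S).filter fun m => m l ∈ E l m).card : ℝ) := by
        exact_mod_cast Finset.card_le_card h1
    _ ≤ ((∑ l, ((Fintype.piFinset S).filter fun m => m l ∈ E l m).card : ℕ) : ℝ) := by
        exact_mod_cast Finset.card_biUnion_le
    _ ≤ _ := by
        push_cast
        exact Finset.sum_le_sum fun l _ => h2 l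

/-- `S` is covered by `q` intervals `[N, N + N ^ c]` -/
def Cov (c : ℝ) (q : ℕ) (S : Finset ℕ) : Prop :=
  ∃ N : Fin q → ℕ, (∀ i, 1 ≤ N i) ∧ ∀ s ∈ S, ∃ i, N i ≤ s ∧ (s : ℝ) ≤ N i + (N i : ℝ) ^ c

open Classical in
lemma cov_count {c : ℝ} {M q : ℕ} {B : Set ℕ} (hB : Thin c M B) {S : Finset ℕ} (hS : Cov c q S) :
    (S.filter fun s => s ∈ B).card ≤ M * q := by
  obtain ⟨N, hN, hS⟩ := hS
  have h1 : (S.filter fun s => s ∈ B) ⊆ Finset.univ.biUnion fun i : Fin q =>
      S.filter fun s => s ∈ B ∧ N i ≤ s ∧ (s : ℝ) ≤ N i + (N i : ℝ) ^ c := by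
    intro s hs
    obtain ⟨h2, h3⟩ := Finset.mem_filter.1 hs
    obtain ⟨i, hi⟩ := hS s h2
    exact Finset.mem_biUnion.2 ⟨i, Finset.mem_univ _, Finset.mem_filter.2 ⟨h2, h3, hi⟩⟩
  refine (Finset.card_le_card h1).trans (Finset.card_biUnion_le.trans ?_)
  refine (Finset.sum_le_card_nsmul _ _ M fun i _ => ?_).trans (by simp [mul_comm])
  exact hB (N i) _ (hN i) fun s hs => (Finset.mem_filter.1 hs).2

section cons

/-- one more integer -/
def consE {k : ℕ} (E₀ : (Fin k → ℕ) → Set ℕ) (E : Fin k → (Fin k → ℕ) → Set ℕ) :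
    Fin (k + 1) → (Fin (k + 1) → ℕ) → Set ℕ := fun l m =>
  Fin.cases (motive := fun _ => Set ℕ) (E₀ fun i => m i.succ) (fun l' => E l' fun i => m i.succ) l

lemma consE_ex {k M : ℕ} {c : ℝ} {E₀ : (Fin k → ℕ) → Set ℕ} {E : Fin k → (Fin k → ℕ) → Set ℕ}
    (h0 : ∀ m, Thin c M (E₀ m)) (h : Ex c M E) : Ex c M (consE E₀ E) := by
  constructor
  · intro l m
    refine Fin.cases ?_ (fun l' => ?_) l
    · exact h0 _
    · exact h.1 l' _
  · intro l m m' hmm
    revert hmm
    refine Fin.cases ?_ (fun l' => ?_) l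
    · intro hmm
      show E₀ _ = E₀ _
      congr 1
      funext i
      exact hmm i.succ (Fin.succ_pos i)
    · intro hmm
      show E l' _ = E l' _
      exact h.2 l' _ _ fun i hi => hmm i.succ (Fin.succ_lt_succ_iff.2 hi)

end cons

variable {n : ℕ} {f : Polynomial ℚ} {A : Fin n → Fin n → Polynomial ℚ} {Z W : Fin n → Fin n → ℚ⟦X⟧}

/-- **Nondegenerate tuples, one integer after another.** -/
theorem nd_seq (h : Dat f A Z W) {δ : ℕ} (b : Bas Z δ) (k D : ℕ) :
    ∃ M : ℕ, ∃ c : ℝ, 0 < c ∧ ∀ V : Submodule ℚ ℂ, Module.Finite ℚ V → Module.finrank ℚ V ≤ D →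
      ∃ E : Fin k → (Fin k → ℕ) → Set ℕ, Ex c M E ∧ ∀ m, (∀ l, m l ∉ E l m) → Nd b V m := by
  classical
  induction k with
  | zero =>
    refine ⟨0, 1, one_pos, fun V _ _ => ⟨fun _ _ => ∅, ⟨fun l => l.elim0, fun l => l.elim0⟩, fun m _ => nd_zero b m⟩⟩
  | succ k ih =>
    obtain ⟨M₁, c₁, hc₁, H₁⟩ := ih
    obtain ⟨M₂, c₂, hc₂, H₂⟩ := nd_win h b (D * (Fintype.card (Fin k → b.s) + 1))
    refine ⟨max M₁ M₂, min c₁ c₂, lt_min hc₁ hc₂, fun V hV hVD => ?_⟩
    obtain ⟨E, hE, hE'⟩ := H₁ V hV hVD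
    set E₀ : (Fin k → ℕ) → Set ℕ := fun m => {m₀ | ¬ Nd b
      (V * sp (fun e : Fin k → b.s => ∏ l, wv (zv Z (m l)) (e l : Fin δ → Option (Fin n × Fin n))))
          (fun _ : Fin 1 => m₀)} with hE₀
    refine ⟨consE E₀ E, consE_ex (fun m => ?_) (hE.mono (min_le_left _ _) (le_max_left _ _)), fun m hw => ?_⟩
    · refine Thin.mono (min_le_right _ _) (le_max_right _ _) (M' := M₂) (c' := c₂) fun N S hN hS => ?_
      obtain ⟨h1, h2⟩ := sp_fin (fun e : Fin k → b.s => ∏ l, wv (zv Z (m l)) (e l : Fin δ → Option (Fin n × Fin n)))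
      obtain ⟨h3, h4⟩ := finrank_mul_le V
        (sp (fun e : Fin k → b.s => ∏ l, wv (zv Z (m l)) (e l : Fin δ → Option (Fin n × Fin n))))
      obtain ⟨S', hS', hS''⟩ := H₂ _ h3 (h4.trans (Nat.mul_le_mul hVD h2)) N hN
      refine (Finset.card_le_card fun s hs => ?_).trans hS'
      obtain ⟨h5, h6, h7⟩ := hS s hs
      by_contra h8
      exact h5 (hS'' s h6 h7 h8)
    · refine nd_split b (hE' (fun l => m l.succ) fun l => hw l.succ) ?_
      have h1 := hw 0
      by_contra h2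
      exact h1 h2

open MvPolynomial in
/-- **Avoiding the zeros of a polynomial, one integer after another.** -/
theorem poly_seq {K : Type} [Field K] [CharZero K] (d : ℕ) : ∀ (k : ℕ) (Δ : MvPolynomial (Fin k) K), Δ ≠ 0 →
    Δ.totalDegree ≤ d → ∃ E : Fin k → (Fin k → ℕ) → Set ℕ, (∀ c, Ex c d E) ∧
      ∀ m : Fin k → ℕ, (∀ l, m l ∉ E l m) → eval (fun l => 1 / (m l : K)) Δ ≠ 0 := by
  classical
  intro k
  induction k with
  | zero =>
    intro Δ hΔ hd
    refine ⟨fun _ _ => ∅, fun c => ⟨fun l => l.elim0, fun l => l.elim0⟩, fun m _ h0 => hΔ ?_⟩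
    rw [MvPolynomial.eq_C_of_isEmpty Δ] at h0 ⊢
    rw [MvPolynomial.eval_C] at h0
    rw [h0, map_zero]
  | succ k ih =>
    intro Δ hΔ hd
    set P := finSuccEquiv K k Δ with hP
    have hP0 : P ≠ 0 := (map_ne_zero_iff _ (finSuccEquiv K k).injective).2 hΔ
    have hlead : P.leadingCoeff ≠ 0 := Polynomial.leadingCoeff_ne_zero.2 hP0
    have hdeg : P.natDegree ≤ d := by
      rw [hP, natDegree_finSuccEquiv]
      exact (degreeOf_le_totalDegree _ _).trans hd
    have hld : P.leadingCoeff.totalDegree ≤ d := by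
      have := totalDegree_coeff_finSuccEquiv_add_le Δ P.natDegree (by
        rw [← hP]
        exact hlead)
      rw [← hP] at this
      unfold Polynomial.leadingCoeff
      omega
    obtain ⟨E, hE, hE'⟩ := ih P.leadingCoeff hlead hld
    have hinj : Function.Injective (fun m : ℕ => 1 / (m : K)) := by
      intro a b hab
      simp only [one_div, inv_inj] at hab
      exact_mod_cast hab
    refine ⟨consE (fun m => (((P.map (eval fun l => 1 / (m l : K))).roots.toFinset.preimage (fun m : ℕ => 1 / (m : K))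
      hinj.injOn : Finset ℕ) : Set ℕ)) E, fun c => consE_ex (fun m => thin_finset _ ?_) (hE c), fun m hm => ?_⟩
    · rw [Finset.card_preimage]
      refine (Finset.card_filter_le _ _).trans ((Multiset.toFinset_card_le _).trans ?_)
      exact (Polynomial.card_roots' _).trans ((Polynomial.natDegree_map_le).trans hdeg)
    · have h1 := hE' (fun l => m l.succ) (fun l => hm l.succ)
      have h2 : P.map (eval fun l : Fin k => 1 / (m l.succ : K)) ≠ 0 := by
        intro h3
        have h4 := congrArg (fun Q => Q.coeff P.natDegree) h3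
        simp only [Polynomial.coeff_map, Polynomial.coeff_zero] at h4
        exact h1 h4
      have h3 := hm 0
      intro h4
      apply h3
      show m 0 ∈ (((P.map (eval fun l : Fin k => 1 / (m l.succ : K))).roots.toFinset.preimage
        (fun m : ℕ => 1 / (m : K)) hinj.injOn : Finset ℕ) : Set ℕ)
      rw [Finset.mem_coe, Finset.mem_preimage, Multiset.mem_toFinset, Polynomial.mem_roots h2, Polynomial.IsRoot]
      have h5 := eval_eq_eval_mv_eval' (fun l : Fin k => 1 / (m l.succ : K)) (1 / (m 0 : K)) Δ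
      rw [← hP] at h5
      rw [← h5, ← h4]
      congr 1
      congr 1
      funext l
      refine Fin.cases ?_ (fun l' => ?_) l
      · rfl
      · rfl

end Pool.Agent.L5helper14.SW
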