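import Pool.Agent.L5helper14.SW.Ker
import Pool.Agent.L5helper14.SW.Seq
import Pool.Agent.Y921.DB.Spec

/-!
# Relations over a number field are specialisations of functional relations, uniformly in the constants
-/

set_option autoImplicit false

open PowerSeries

namespace Pool.Agent.L5helper14.SW

open Pool.Agent.Y113 Pool.Agent.Y113.GG Pool.Agent.Y37.GF Pool.Agent.Y118.HG Pool.Agent.Y921.DB

variable {n k δ : ℕ} {ι : Type}

section expand

/-- finitely many polynomials over `ℂ` in terms of polynomials over `K` and constants independent over `K`, with bounds for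
the number of the constants and for the degrees -/
lemma exists_expand_deg {α : Type} [Fintype α] (d : ℕ) : ∃ B : ℕ, ∀ (K : Type) [Field K] [Algebra K ℂ]
    (P : α → MvPolynomial (Fin k) ℂ), (∀ a, (P a).totalDegree ≤ d) →
    ∃ (r : ℕ) (v : Fin r → ℂ) (R : Fin r → α → MvPolynomial (Fin k) K), r ≤ B ∧ LinearIndependent K v ∧
      (∀ i a, (R i a).totalDegree ≤ d) ∧
      ∀ a, P a = ∑ i, MvPolynomial.C (v i) * (R i a).map (algebraMap K ℂ) := by
  classical
  set T : Finset (Fin k →₀ ℕ) := Finset.Iic (Finsupp.equivFunOnFinite.symm fun _ => d) with hT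
  refine ⟨(Finset.univ ×ˢ T : Finset (α × (Fin k →₀ ℕ))).card, fun K _ _ P hP => ?_⟩
  set S : Finset ℂ := (Finset.univ ×ˢ T : Finset (α × (Fin k →₀ ℕ))).image fun p => (P p.1).coeff p.2 with hS
  set U := Submodule.span K (S : Set ℂ) with hU
  have hUf : Module.Finite K U := Module.Finite.span_of_finite K S.finite_toSet
  set b := Module.finBasis K U with hb
  have hmem : ∀ a s, (P a).coeff s ∈ U := by
    intro a s
    by_cases h : s ∈ (P a).support
    · refine Submodule.subset_span (Finset.mem_coe.2 (Finset.mem_image.2 ⟨(a, s), ?_, rfl⟩))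
      refine Finset.mem_product.2 ⟨Finset.mem_univ _, ?_⟩
      rw [hT, Finset.mem_Iic]
      intro i
      have h1 := (MvPolynomial.le_totalDegree h).trans (hP a)
      rw [Finsupp.sum_fintype _ _ (fun _ => rfl)] at h1
      exact (Finset.single_le_sum (f := fun i => s i) (fun _ _ => Nat.zero_le _) (Finset.mem_univ i)).trans h1
    · rw [MvPolynomial.notMem_support_iff.1 h]
      exact U.zero_mem
  refine ⟨_, fun i => (b i : ℂ), fun i a => ∑ s ∈ (P a).support, MvPolynomial.monomial s (b.repr ⟨_, hmem a s⟩ i),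
    (finrank_span_finset_le_card S).trans Finset.card_image_le, ?_, fun i a => ?_, ?_⟩
  · exact b.linearIndependent.map' U.subtype (Submodule.ker_subtype U)
  · refine MvPolynomial.totalDegree_finsetSum_le fun s hs => ?_
    refine (MvPolynomial.totalDegree_monomial_le _ _).trans ((MvPolynomial.le_totalDegree hs).trans (hP a))
  · intro a
    have h1 : ∀ i, MvPolynomial.C (b i : ℂ) * (∑ s ∈ (P a).support,
        MvPolynomial.monomial s (b.repr ⟨_, hmem a s⟩ i)).map (algebraMap K ℂ) =
        ∑ s ∈ (P a).support, MvPolynomial.monomial s (algebraMap K ℂ (b.repr ⟨_, hmem a s⟩ i) * (b i : ℂ)) := by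
      intro i
      rw [map_sum, Finset.mul_sum]
      refine Finset.sum_congr rfl fun s _ => ?_
      rw [MvPolynomial.map_monomial, MvPolynomial.C_mul_monomial, mul_comm]
    rw [Finset.sum_congr rfl fun i _ => h1 i, Finset.sum_comm]
    conv_lhs => rw [(P a).as_sum]
    refine Finset.sum_congr rfl fun s _ => ?_
    rw [← map_sum]
    congr 1
    have h2 := b.sum_repr ⟨_, hmem a s⟩
    have h3 := congrArg (fun x : U => (x : ℂ)) h2
    simp only [Submodule.coe_sum, Submodule.coe_smul] at h3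
    refine h3.symm.trans (Finset.sum_congr rfl fun i _ => ?_)
    rw [Algebra.smul_def]

end expand

section main

variable {Z : Fin n → Fin n → ℚ⟦X⟧} (b : Bas Z δ)

lemma totalDegree_XN (Q : Polynomial ℤ) {S : Type} [CommRing S] [Nontrivial S] (l : Fin k) :
    (Polynomial.aeval (MvPolynomial.X l : MvPolynomial (Fin k) S) Q).totalDegree ≤ Q.natDegree := by
  rw [Polynomial.aeval_eq_sum_range]
  refine MvPolynomial.totalDegree_finsetSum_le fun i hi => ?_
  rw [zsmul_eq_mul]
  refine (MvPolynomial.totalDegree_mul _ _).trans ?_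
  have h1 : ((Q.coeff i : ℤ) : MvPolynomial (Fin k) S) = MvPolynomial.C ((Q.coeff i : ℤ) : S) := by simp
  rw [h1, MvPolynomial.totalDegree_C, zero_add, MvPolynomial.totalDegree_X_pow]
  exact Nat.lt_succ_iff.1 (Finset.mem_range.1 hi)

/-- a bound for the degrees -/
lemma exists_dN : ∃ d : ℕ, ∀ (lam : Fin k → ι → Option (Fin n × Fin n) → ℂ) (w : Fin δ → Option (Fin k × ι))
    (e : Fin k → b.s), (al b lam w e).totalDegree ≤ d := by
  classical
  set d₀ : ℕ := Finset.univ.sup fun p : (Fin δ → Option (Fin n × Fin n)) × b.s => (b.N p.1 p.2).natDegree with hd₀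
  refine ⟨k * d₀, fun lam w e => ?_⟩
  unfold al
  refine (MvPolynomial.totalDegree_finsetProd _ _).trans ?_
  refine (Finset.sum_le_card_nsmul _ _ d₀ fun l _ => ?_).trans (by simp)
  refine MvPolynomial.totalDegree_finsetSum_le fun g _ => ?_
  refine (MvPolynomial.totalDegree_mul _ _).trans ?_
  rw [MvPolynomial.totalDegree_C, zero_add]
  refine (totalDegree_XN _ _).trans ?_
  exact Finset.le_sup (f := fun p : (Fin δ → Option (Fin n × Fin n)) × b.s => (b.N p.1 p.2).natDegree)
    (Finset.mem_univ (g, e l))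

variable [Fintype ι]

/-- **The main lemma, uniformly in the constants and in the number field.** -/
theorem spec_unif {C : ℝ} (hC : 1 ≤ C) (hZ : ∀ i j m, |((coeff m (Z i j) : ℚ) : ℝ)| ≤ C ^ (m + 1)) (D : ℕ) :
    ∃ D₁ D₂ : ℕ, ∀ (K : Type) [Field K] [NumberField K] [Algebra K ℂ], Module.finrank ℚ K ≤ D →
    ∀ lam : Fin k → ι → Option (Fin n × Fin n) → ℂ,
    ∃ V : Submodule ℚ ℂ, Module.Finite ℚ V ∧ Module.finrank ℚ V ≤ D₁ ∧ ∃ Δ : MvPolynomial (Fin k) K, Δ ≠ 0 ∧
      Δ.totalDegree ≤ D₂ ∧
      ∀ m : Fin k → ℕ, (∀ l, C < m l) → Nd b V m → MvPolynomial.eval (fun l => 1 / (m l : K)) Δ ≠ 0 →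
        SpecK K (pt lam Z) (1 / C) δ m := by
  classical
  obtain ⟨d, hd⟩ := exists_dN (k := k) (ι := ι) b
  obtain ⟨B, hB⟩ := exists_expand_deg (k := k) (α := (Fin δ → Option (Fin k × ι)) × (Fin k → b.s)) d
  refine ⟨D * B, Fintype.card (Fin δ → Option (Fin k × ι)) * d + k * b.D.natDegree, ?_⟩
  intro K _ _ _ hKD
  set dD : MvPolynomial (Fin k) K := ∏ l, Polynomial.aeval (MvPolynomial.X l) b.D with hdD
  have hXD : ∀ l : Fin k, (Polynomial.aeval (MvPolynomial.X l : MvPolynomial (Fin k) K) b.D) ≠ 0 := by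
    intro l h0
    have h1 := congrArg (MvPolynomial.aeval (fun _ : Fin k => (Polynomial.X : Polynomial K))) h0
    rw [aeval_XN, map_zero] at h1
    have h2 : ∀ φ : ℤ →+* Polynomial K, Polynomial.eval₂ φ Polynomial.X b.D = b.D.map (Int.castRingHom K) := by
      intro φ
      have : φ = Polynomial.C.comp (Int.castRingHom K) := Subsingleton.elim _ _
      rw [this]
      rfl
    rw [Polynomial.aeval_def, h2] at h1
    exact b.hD ((Polynomial.map_eq_zero_iff (RingHom.injective_int _)).1 h1)
  have hdD0 : dD ≠ 0 := Finset.prod_ne_zero_iff.2 fun l _ => hXD l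
  have hdDd : dD.totalDegree ≤ k * b.D.natDegree := by
    rw [hdD]
    refine (MvPolynomial.totalDegree_finsetProd _ _).trans ?_
    exact (Finset.sum_le_card_nsmul _ _ _ fun l _ => totalDegree_XN _ _).trans (by simp)
  intro lam
  obtain ⟨r, v, R, hrB, hv, hRd, hR⟩ := hB K
    (fun p : (Fin δ → Option (Fin k × ι)) × (Fin k → b.s) => al b lam p.1 p.2) (fun p => hd lam p.1 p.2)
  obtain ⟨s, I, J', hs, hdet, hker⟩ := ker_spec_minor
    (fun (w : Fin δ → Option (Fin k × ι)) (j : Fin r × (Fin k → b.s)) => R j.1 (w, j.2))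
  set Δ := (Matrix.of fun a b_1 => (fun (w : Fin δ → Option (Fin k × ι)) (j : Fin r × (Fin k → b.s)) =>
    R j.1 (w, j.2)) (I a) (J' b_1)).det with hΔdef
  have hΔ : Δ ≠ 0 := hdet
  have hΔd : Δ.totalDegree ≤ Fintype.card (Fin δ → Option (Fin k × ι)) * d := by
    refine (totalDegree_det_le (d := d) _ fun a b_1 => ?_).trans (Nat.mul_le_mul_right _ hs)
    exact hRd _ _
  set V : Submodule ℚ ℂ := (Submodule.span K (Set.range v)).restrictScalars ℚ with hV
  have hVf : Module.Finite K (Submodule.span K (Set.range v)) := Module.Finite.span_of_finite K (Set.finite_range v)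
  have hVt : IsScalarTower ℚ K (Submodule.span K (Set.range v)) := inferInstance
  have hVfin : Module.Finite ℚ V :=
    (Module.Finite.trans K (Submodule.span K (Set.range v)) : Module.Finite ℚ (Submodule.span K (Set.range v)))
  have hVr : Module.finrank ℚ V ≤ D * B := by
    have h1 : Module.finrank ℚ K * Module.finrank K (Submodule.span K (Set.range v)) =
        Module.finrank ℚ (Submodule.span K (Set.range v)) := Module.finrank_mul_finrank ℚ K _
    have h2 : Module.finrank ℚ V = Module.finrank ℚ (Submodule.span K (Set.range v)) := rfl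
    rw [h2, ← h1]
    refine Nat.mul_le_mul hKD ((finrank_range_le_card v).trans ?_)
    rw [Fintype.card_fin]
    exact hrB
  refine ⟨V, hVfin, hVr, Δ * dD, mul_ne_zero hΔ hdD0,
    (MvPolynomial.totalDegree_mul _ _).trans (Nat.add_le_add hΔd hdDd), fun m hm hN hΔm P hPd hP => ?_⟩
  rw [map_mul] at hΔm
  have hΔ1 := left_ne_zero_of_mul hΔm
  have hρ := right_ne_zero_of_mul hΔm
  set ρ : K := MvPolynomial.eval (fun l => 1 / (m l : K)) dD with hρdef
  set z : Fin k → ℂ := fun l => 1 / (m l : ℂ) with hz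
  have hm0 : ∀ l, (0 : ℝ) < m l := fun l => lt_trans (by linarith) (hm l)
  have hzC : ∀ l, ‖z l‖ < 1 / C := by
    intro l
    rw [hz]
    simp only [norm_div, norm_one, Complex.norm_natCast]
    exact one_div_lt_one_div_of_lt (by linarith) (hm l)
  have hzK : ∀ Q : MvPolynomial (Fin k) K, MvPolynomial.aeval z Q =
      algebraMap K ℂ (MvPolynomial.eval (fun l => 1 / (m l : K)) Q) := by
    intro Q
    have h1 : z = algebraMap K ℂ ∘ fun l => (1 / (m l : K)) := by
      funext l
      simp [hz]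
    rw [h1, MvPolynomial.aeval_algebraMap_apply]
    rfl
  -- expansion
  have hexp : ∀ (x : Fin k → ℂ), (∀ l, ‖x l‖ < 1 / C) → ∀ w : Fin δ → Option (Fin k × ι),
      MvPolynomial.aeval x dD * wv (pt lam Z x) w = ∑ e, (∑ i, v i * MvPolynomial.aeval x (R i (w, e))) *
        ∏ l, wv (zc Z (x l)) (e l : Fin δ → Option (Fin n × Fin n)) := by
    intro x hx w
    have h1 : MvPolynomial.aeval x dD = ∏ l, Polynomial.aeval (x l) b.D := by
      rw [hdD, map_prod]
      exact Finset.prod_congr rfl fun l _ => aeval_XN _ _ _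
    rw [h1, dw b lam hC hZ w hx]
    refine Finset.sum_congr rfl fun e _ => ?_
    congr 1
    rw [hR (w, e), map_sum]
    refine Finset.sum_congr rfl fun i _ => ?_
    rw [map_mul, MvPolynomial.aeval_C, MvPolynomial.aeval_map_algebraMap]
    rfl
  obtain ⟨f, hf⟩ := exists_f P hPd
  -- the linear relations
  have hc : ∀ e : Fin k → b.s, ∑ i, v i * algebraMap K ℂ (∑ w, f w *
      MvPolynomial.eval (fun l => 1 / (m l : K)) (R i (w, e))) = 0 := by
    have hsum : ∑ e : Fin k → b.s, (∑ i, v i * algebraMap K ℂ (∑ w, f w *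
        MvPolynomial.eval (fun l => 1 / (m l : K)) (R i (w, e)))) *
        ∏ l, wv (zv Z (m l)) (e l : Fin δ → Option (Fin n × Fin n)) = 0 := by
      have h1 : MvPolynomial.aeval z dD * MvPolynomial.aeval (pt lam Z z) P = 0 := by
        have : MvPolynomial.aeval (pt lam Z z) P = 0 := hP
        rw [this, mul_zero]
      rw [hf, Finset.mul_sum] at h1
      rw [← h1]
      have h2 : ∀ w, MvPolynomial.aeval z dD * (algebraMap K ℂ (f w) * wv (pt lam Z z) w) =
          ∑ e, (∑ i, v i * algebraMap K ℂ (f w * MvPolynomial.eval (fun l => 1 / (m l : K)) (R i (w, e)))) *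
        ∏ l, wv (zv Z (m l)) (e l : Fin δ → Option (Fin n × Fin n)) := by
        intro w
        calc _ = algebraMap K ℂ (f w) * (MvPolynomial.aeval z dD * wv (pt lam Z z) w) := by ring
          _ = _ := by
            rw [hexp z hzC w, Finset.mul_sum]
            refine Finset.sum_congr rfl fun e _ => ?_
            rw [← mul_assoc, Finset.mul_sum]
            congr 1
            · refine Finset.sum_congr rfl fun i _ => ?_
              rw [hzK, map_mul]
              ring
            · refine Finset.prod_congr rfl fun l _ => ?_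
              have h3 : zv Z (m l) = zc Z (z l) := by
                funext p
                rw [zv_eq]
                simp [hz]
              rw [h3]
      rw [Finset.sum_congr rfl fun w _ => h2 w, Finset.sum_comm]
      refine Finset.sum_congr rfl fun e _ => ?_
      rw [← Finset.sum_mul]
      congr 1
      rw [Finset.sum_comm]
      refine Finset.sum_congr rfl fun i _ => ?_
      rw [map_sum, Finset.mul_sum]
    have h4 := hN _ (fun e => by
      show _ ∈ Submodule.span K (Set.range v)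
      refine Submodule.sum_mem _ fun i _ => ?_
      rw [mul_comm, ← Algebra.smul_def]
      exact Submodule.smul_mem _ _ (Submodule.subset_span ⟨i, rfl⟩)) hsum
    exact fun e => congrFun h4 e
  obtain ⟨g, hg1, hg2⟩ := hker K MvPolynomial.C (MvPolynomial.eval fun l => 1 / (m l : K))
    (by ext x; simp) hΔ1 f (fun j => by
      have h1 := hc j.2
      have h2 := Fintype.linearIndependent_iff.1 hv (fun i => ∑ w, f w *
        MvPolynomial.eval (fun l => 1 / (m l : K)) (R i (w, j.2))) (by
          rw [← h1]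
          refine Finset.sum_congr rfl fun i _ => ?_
          rw [Algebra.smul_def, mul_comm]) j.1
      exact h2)
  refine ⟨∑ w, MvPolynomial.C (MvPolynomial.C ρ⁻¹ * dD * g w) * wv (fun i => MvPolynomial.X i) w, ?_, fun x hx => ?_, ?_⟩
  · refine MvPolynomial.totalDegree_finsetSum_le fun w _ => ?_
    refine (MvPolynomial.totalDegree_mul _ _).trans ?_
    rw [MvPolynomial.totalDegree_C, zero_add]
    exact degree_wv w
  · rw [MvPolynomial.eval₂_sum]
    have h1 : ∀ w, MvPolynomial.eval₂ (MvPolynomial.aeval x : MvPolynomial (Fin k) K →ₐ[K] ℂ).toRingHom (pt lam Z x)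
        (MvPolynomial.C (MvPolynomial.C ρ⁻¹ * dD * g w) * wv (fun i => MvPolynomial.X i) w) =
        ∑ e, ∑ i, (algebraMap K ℂ ρ⁻¹ * v i * MvPolynomial.aeval x (g w * R i (w, e))) *
          ∏ l, wv (zc Z (x l)) (e l : Fin δ → Option (Fin n × Fin n)) := by
      intro w
      rw [MvPolynomial.eval₂_mul, MvPolynomial.eval₂_C]
      have h2 : MvPolynomial.eval₂ (MvPolynomial.aeval x : MvPolynomial (Fin k) K →ₐ[K] ℂ).toRingHom (pt lam Z x)
          (wv (fun i => MvPolynomial.X i) w) = wv (pt lam Z x) w := by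
        have := map_wv (MvPolynomial.eval₂Hom (MvPolynomial.aeval x : MvPolynomial (Fin k) K →ₐ[K] ℂ).toRingHom
          (pt lam Z x)) (fun i => (MvPolynomial.X i : MvPolynomial (Fin k × ι) (MvPolynomial (Fin k) K))) w
        rw [MvPolynomial.coe_eval₂Hom] at this
        rw [this]
        congr 1
        funext i
        exact MvPolynomial.eval₂_X _ _ _
      rw [h2]
      calc _ = algebraMap K ℂ ρ⁻¹ * MvPolynomial.aeval x (g w) * (MvPolynomial.aeval x dD * wv (pt lam Z x) w) := by
            show MvPolynomial.aeval x (MvPolynomial.C ρ⁻¹ * dD * g w) * wv (pt lam Z x) w = _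
            rw [map_mul, map_mul, MvPolynomial.aeval_C]
            ring
        _ = _ := by
            rw [hexp x hx w, Finset.mul_sum]
            refine Finset.sum_congr rfl fun e _ => ?_
            rw [← mul_assoc, Finset.mul_sum, Finset.sum_mul]
            refine Finset.sum_congr rfl fun i _ => ?_
            rw [map_mul]
            ring
    rw [Finset.sum_congr rfl fun w _ => h1 w, Finset.sum_comm]
    refine Finset.sum_eq_zero fun e _ => ?_
    rw [Finset.sum_comm]
    refine Finset.sum_eq_zero fun i _ => ?_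
    have h5 : ∑ w, MvPolynomial.aeval x (g w * R i (w, e)) = 0 := by
      rw [← map_sum, hg1 (i, e), map_zero]
    have h6 : ∑ w, algebraMap K ℂ ρ⁻¹ * v i * MvPolynomial.aeval x (g w * R i (w, e)) *
        ∏ l, wv (zc Z (x l)) (e l : Fin δ → Option (Fin n × Fin n)) =
        algebraMap K ℂ ρ⁻¹ * v i * (∑ w, MvPolynomial.aeval x (g w * R i (w, e))) *
        ∏ l, wv (zc Z (x l)) (e l : Fin δ → Option (Fin n × Fin n)) := by
      rw [Finset.mul_sum, Finset.sum_mul]
    rw [h6, h5, mul_zero, zero_mul]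
  · rw [map_sum]
    have h1 := hf (MvPolynomial (Fin k × ι) K) MvPolynomial.X
    rw [MvPolynomial.aeval_X_left_apply] at h1
    rw [h1]
    refine Finset.sum_congr rfl fun w _ => ?_
    have h2 : MvPolynomial.eval (fun l => 1 / (m l : K)) (MvPolynomial.C ρ⁻¹ * dD * g w) = f w := by
      rw [map_mul, map_mul, MvPolynomial.eval_C, hg2, ← hρdef, inv_mul_cancel₀ hρ, one_mul]
    rw [map_mul, MvPolynomial.map_C, map_wv, h2]
    congr 1
    congr 1
    funext i
    exact MvPolynomial.map_X _ _

variable {f : Polynomial ℚ} {A : Fin n → Fin n → Polynomial ℚ} {W : Fin n → Fin n → ℚ⟦X⟧}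

omit b in
/-- **One integer after another**, uniformly in the constants -/
theorem spec_seq (h : Dat f A Z W) (δ D : ℕ) {r₀ : ℝ} (hr₀ : 0 < r₀) :
    ∃ r : ℝ, 0 < r ∧ r ≤ r₀ ∧ ∃ c : ℝ, 0 < c ∧ ∃ M : ℕ, ∀ (K : Type) [Field K] [NumberField K] [Algebra K ℂ],
      Module.finrank ℚ K ≤ D → ∀ lam : Fin k → ι → Option (Fin n × Fin n) → ℂ,
      ∃ E : Fin k → (Fin k → ℕ) → Set ℕ, Ex c M E ∧ ∀ m, (∀ l, m l ∉ E l m) →
        (∀ l, 1 / (m l : ℝ) < r) ∧ SpecK K (pt lam Z) r δ m := by
  classical
  obtain ⟨b⟩ := exists_bas Z δ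
  obtain ⟨C', hC', hCZ', -⟩ := h.bound
  obtain ⟨C, hCC, hCr⟩ : ∃ C : ℝ, C' ≤ C ∧ 1 / r₀ ≤ C := ⟨max C' (1 / r₀), le_max_left _ _, le_max_right _ _⟩
  have hC : 1 ≤ C := hC'.trans hCC
  have hC0 : 0 < C := by linarith
  have hCZ : ∀ i j m, |((coeff m (Z i j) : ℚ) : ℝ)| ≤ C ^ (m + 1) := fun i j m =>
    (hCZ' i j m).trans (pow_le_pow_left₀ (by linarith) hCC _)
  obtain ⟨D₁, D₂, hmain⟩ := spec_unif (k := k) (ι := ι) b hC hCZ D
  obtain ⟨C₀, hC₀⟩ := exists_nat_ge C
  obtain ⟨M, c, hc, hnd⟩ := nd_seq h b k D₁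
  refine ⟨1 / C, by positivity, by rw [div_le_iff₀ hC0]; rw [div_le_iff₀ hr₀] at hCr; linarith, c, hc,
    M + D₂ + (C₀ + 1), ?_⟩
  intro K _ _ _ hKD lam
  obtain ⟨V, hV, hVD, Δ, hΔ, hΔd, hspec⟩ := hmain K hKD lam
  obtain ⟨E₁, hE₁, hE₁'⟩ := hnd V hV hVD
  obtain ⟨E₂, hE₂, hE₂'⟩ := poly_seq D₂ k Δ hΔ hΔd
  refine ⟨fun l m => E₁ l m ∪ E₂ l m ∪ ((Finset.range (C₀ + 1) : Finset ℕ) : Set ℕ),
    (hE₁.union (hE₂ c)).union ⟨fun l m => thin_finset _ (by rw [Finset.card_range]), fun l m m' _ => rfl⟩,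
    fun m hw => ?_⟩
  have h2 : ∀ l, C < m l := by
    intro l
    have h3 := hw l
    rw [Set.mem_union, not_or] at h3
    have h4 := h3.2
    rw [Finset.mem_coe, Finset.mem_range, not_lt] at h4
    exact lt_of_le_of_lt hC₀ (by exact_mod_cast h4)
  refine ⟨fun l => one_div_lt_one_div_of_lt hC0 (h2 l), hspec m h2 ?_ ?_⟩
  · refine hE₁' m fun l hl => hw l ?_
    exact Or.inl (Or.inl hl)
  · refine hE₂' m fun l hl => hw l ?_
    exact Or.inl (Or.inr hl)

end main

end Pool.Agent.L5helper14.SW
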